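import Pool.Agent.W707.TV.Gam

/-!
# TVC-SMALL: for `2 n < M` the coefficients do not grow (task of helper707)
-/

set_option autoImplicit false

namespace Pool.Agent.W975.TV

open Filter Finset EvenVol Pool.Agent.H112R4.VL Pool.Agent.W709.VC Pool.Agent.W707.TV
open scoped Real Topology

/-- `2 sin (π j / R)` -/
noncomputable def sj (M j : ℕ) : ℝ := 2 * Real.sin (π * j / Rh M)

lemma sj_pos {M j : ℕ} (h0 : 1 ≤ j) (h1 : j ≤ M) : 0 < sj M j := by
  have hR := Rh_pos M
  have hp := Real.pi_pos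
  unfold sj
  have h2 : (1 : ℝ) ≤ j := by exact_mod_cast h0
  have h3 : (j : ℝ) ≤ M := by exact_mod_cast h1
  have h4 : 0 < Real.sin (π * j / Rh M) := by
    apply Real.sin_pos_of_pos_of_lt_pi
    · positivity
    · rw [div_lt_iff₀ hR]
      unfold Rh
      nlinarith
  linarith

/-- `‖brf n‖` -/
lemma norm_brf_succ {M n : ℕ} (h : n + 1 ≤ M) :
    ‖brf (vh M) (n + 1)‖ = ‖brf (vh M) n‖ * sj M (n + 1) := by
  unfold brf
  rw [Finset.prod_range_succ, norm_mul]
  congr 1
  rw [br_vh, norm_mul, norm_mul, Complex.norm_I, Complex.norm_real, Complex.norm_ofNat, mul_one]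
  have h1 := sj_pos (M := M) (j := n + 1) (by omega) h
  unfold sj at h1 ⊢
  push_cast at h1 ⊢
  rw [Real.norm_of_nonneg (by linarith)]

lemma brf_pos {M n : ℕ} (h : n ≤ M) : 0 < ‖brf (vh M) n‖ := by
  rw [norm_pos_iff]
  exact brf_vh_ne (by omega)

/-- comparison of the sines -/
lemma sj_le {M n k : ℕ} (hn : 2 * n + 1 ≤ M) (hk : k + 1 ≤ n) :
    sj M (n - k) ≤ sj M (n + k + 1) := by
  have hR := Rh_pos M
  have hp := Real.pi_pos
  unfold sj
  have h1 : ((n - k : ℕ) : ℝ) = n - k := by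
    rw [Nat.cast_sub (by omega)]
  have h2 : (2 * n + 1 : ℝ) ≤ M := by exact_mod_cast hn
  have h3 : (k + 1 : ℝ) ≤ n := by exact_mod_cast hk
  have h4 : Real.sin (π * ((n + k + 1 : ℕ) : ℝ) / Rh M) - Real.sin (π * ((n - k : ℕ) : ℝ) / Rh M) =
      2 * Real.sin ((π * ((n + k + 1 : ℕ) : ℝ) / Rh M - π * ((n - k : ℕ) : ℝ) / Rh M) / 2) *
        Real.cos ((π * ((n + k + 1 : ℕ) : ℝ) / Rh M + π * ((n - k : ℕ) : ℝ) / Rh M) / 2) :=
    Real.sin_sub_sin _ _
  have h5 : (π * ((n + k + 1 : ℕ) : ℝ) / Rh M - π * ((n - k : ℕ) : ℝ) / Rh M) / 2 =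
      π * (2 * k + 1) / (2 * Rh M) := by
    rw [h1]
    push_cast
    field_simp
    ring
  have h6 : (π * ((n + k + 1 : ℕ) : ℝ) / Rh M + π * ((n - k : ℕ) : ℝ) / Rh M) / 2 =
      π * (2 * n + 1) / (2 * Rh M) := by
    rw [h1]
    push_cast
    field_simp
    ring
  rw [h5, h6] at h4
  have hk0 : (0 : ℝ) ≤ k := Nat.cast_nonneg k
  have hn0 : (0 : ℝ) ≤ n := Nat.cast_nonneg n
  have h7 : 0 ≤ Real.sin (π * (2 * k + 1) / (2 * Rh M)) := by
    apply Real.sin_nonneg_of_nonneg_of_le_pi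
    · positivity
    · rw [div_le_iff₀ (by positivity)]
      unfold Rh
      nlinarith
  have h8 : 0 ≤ Real.cos (π * (2 * n + 1) / (2 * Rh M)) := by
    apply Real.cos_nonneg_of_mem_Icc
    constructor
    · have : 0 ≤ π * (2 * n + 1) / (2 * Rh M) := by positivity
      linarith
    · rw [div_le_iff₀ (by positivity)]
      unfold Rh
      nlinarith
  have h9 := mul_nonneg h7 h8
  linarith

lemma key {M n : ℕ} (hn : 2 * n + 1 ≤ M) (k : ℕ) (hk : k ≤ n) :
    ‖brf (vh M) n‖ ^ 2 * sj M (n + k + 1) ≤ ‖brf (vh M) (n - k)‖ * ‖brf (vh M) (n + k + 1)‖ := by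
  induction k with
  | zero =>
    rw [Nat.sub_zero, add_zero, norm_brf_succ (by omega)]
    linarith [sq_nonneg ‖brf (vh M) n‖]
  | succ k ih =>
    have h1 := ih (by omega)
    have h2 := norm_brf_succ (M := M) (n := n + k + 1) (by omega)
    have h3 := norm_brf_succ (M := M) (n := n - (k + 1)) (by omega)
    rw [show n - (k + 1) + 1 = n - k by omega] at h3
    have h4 := sj_le hn hk
    have p1 := sj_pos (M := M) (j := n - k) (by omega) (by omega)
    have p2 := sj_pos (M := M) (j := n + k + 1) (by omega) (by omega)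
    have p3 := sj_pos (M := M) (j := n + k + 1 + 1) (by omega) (by omega)
    rw [show n + (k + 1) + 1 = n + k + 1 + 1 by ring, h2]
    rw [h3] at h1
    have h5 : ‖brf (vh M) n‖ ^ 2 * sj M (n - k) ≤
        ‖brf (vh M) (n - (k + 1))‖ * ‖brf (vh M) (n + k + 1)‖ * sj M (n - k) := by
      calc ‖brf (vh M) n‖ ^ 2 * sj M (n - k) ≤ ‖brf (vh M) n‖ ^ 2 * sj M (n + k + 1) :=
            mul_le_mul_of_nonneg_left h4 (sq_nonneg _)
        _ ≤ _ := h1
        _ = _ := by ring
    have h6 := le_of_mul_le_mul_right h5 p1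
    calc ‖brf (vh M) n‖ ^ 2 * sj M (n + k + 1 + 1)
        ≤ ‖brf (vh M) (n - (k + 1))‖ * ‖brf (vh M) (n + k + 1)‖ * sj M (n + k + 1 + 1) :=
          mul_le_mul_of_nonneg_right h6 p3.le
      _ = _ := by ring

lemma sj_lower {M j : ℕ} (h0 : 1 ≤ j) (h1 : j ≤ M) : 2 / Rh M ≤ sj M j := by
  have hR := Rh_pos M
  have hp := Real.pi_pos
  unfold sj
  have h2 : (1 : ℝ) ≤ j := by exact_mod_cast h0
  have h3 : (j : ℝ) ≤ M := by exact_mod_cast h1
  have hs : 1 / Rh M ≤ Real.sin (π * j / Rh M) := by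
    rcases le_total (π * j / Rh M) (π / 2) with h | h
    · have h4 := Real.mul_le_sin (x := π * j / Rh M) (by positivity) h
      have h5 : 2 / π * (π * j / Rh M) = 2 * j / Rh M := by
        field_simp
      rw [h5] at h4
      refine le_trans ?_ h4
      apply div_le_div_of_nonneg_right _ hR.le
      linarith
    · have h4 := Real.mul_le_sin (x := π - π * j / Rh M) (by
        rw [sub_nonneg, div_le_iff₀ hR]
        unfold Rh
        nlinarith) (by linarith)
      rw [Real.sin_pi_sub] at h4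
      have h5 : 2 / π * (π - π * j / Rh M) = 2 * (Rh M - j) / Rh M := by
        field_simp
      rw [h5] at h4
      refine le_trans ?_ h4
      apply div_le_div_of_nonneg_right _ hR.le
      unfold Rh
      linarith
  calc 2 / Rh M = 2 * (1 / Rh M) := by ring
    _ ≤ _ := by linarith

lemma norm_vh (M : ℕ) : ‖vh M‖ = 1 := by
  unfold vh
  have : (π * Complex.I / Rh M : ℂ) = ((π / Rh M : ℝ) : ℂ) * Complex.I := by
    push_cast
    ring
  rw [this, Complex.norm_exp_ofReal_mul_I]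

theorem hsmall : S_HSMALL := by
  intro A ε hε
  have h2 : ∀ᶠ M : ℕ in atTop, 2 * Real.log M + Real.log 2 ≤ ε * M := by
    have h3 := (Real.isLittleO_log_id_atTop.bound (show 0 < ε / 4 by positivity))
    have h4 := tendsto_natCast_atTop_atTop (R := ℝ) |>.eventually h3
    have h5 : ∀ᶠ N : ℕ in atTop, Real.log 2 ≤ ε / 2 * N := by
      have h6 : Tendsto (fun N : ℕ => ε / 2 * (N : ℝ)) atTop atTop :=
        Tendsto.const_mul_atTop (by positivity) tendsto_natCast_atTop_atTop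
      exact h6.eventually_ge_atTop _
    filter_upwards [h4, h5, eventually_ge_atTop 1] with N hN hN2 hN1
    have hN1' : (1 : ℝ) ≤ N := by exact_mod_cast hN1
    rw [Real.norm_of_nonneg (Real.log_nonneg hN1'), id, Real.norm_of_nonneg (by positivity)] at hN
    linarith
  filter_upwards [h2, eventually_ge_atTop 1] with M hM hM1 n hn
  have hR := Rh_pos M
  have hM1' : (1 : ℝ) ≤ M := by exact_mod_cast hM1
  have hterm : ∀ k ∈ range (n + 1),
      ‖brf (vh M) n‖ * ‖(-1 : ℂ) ^ (n - k) *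
        (brf (vh M) n / (brf (vh M) (n - k) * brf (vh M) (n + k + 1))) *
        (((-1) ^ k * vh M ^ (k * (k + 1))) ^ (A : ℤ) * br (vh M) ((2 * k + 1 : ℕ) : ℤ))‖ ≤
      Rh M := by
    intro k hk
    rw [Finset.mem_range] at hk
    have e1 : ‖(-1 : ℂ) ^ (n - k)‖ = 1 := by rw [norm_pow, norm_neg, norm_one, one_pow]
    have e2 : ‖((-1 : ℂ) ^ k * vh M ^ (k * (k + 1))) ^ (A : ℤ)‖ = 1 := by
      rw [norm_zpow, norm_mul, norm_pow, norm_neg, norm_one, one_pow, norm_pow, norm_vh, one_pow,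
        one_mul, one_zpow]
    have e3 : ‖br (vh M) ((2 * k + 1 : ℕ) : ℤ)‖ ≤ 2 := by
      rw [br_vh, norm_mul, norm_mul, Complex.norm_I, Complex.norm_real, Complex.norm_ofNat, mul_one,
        Real.norm_eq_abs]
      have := Real.abs_sin_le_one (π * (((2 * k + 1 : ℕ) : ℤ) : ℝ) / Rh M)
      linarith
    have p0 := brf_pos (M := M) (n := n) (by omega)
    have p1 := brf_pos (M := M) (n := n - k) (by omega)
    have p2 := brf_pos (M := M) (n := n + k + 1) (by omega)
    have h3 := key (M := M) (n := n) (by omega) k (by omega)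
    have h4 := sj_lower (M := M) (j := n + k + 1) (by omega) (by omega)
    rw [norm_mul, norm_mul, norm_mul, e1, e2, one_mul, one_mul, norm_div, norm_mul]
    have h5 : ‖brf (vh M) n‖ ^ 2 * (2 / Rh M) ≤
        ‖brf (vh M) (n - k)‖ * ‖brf (vh M) (n + k + 1)‖ :=
      (mul_le_mul_of_nonneg_left h4 (sq_nonneg _)).trans h3
    have h6 : ‖brf (vh M) n‖ ^ 2 * 2 ≤
        Rh M * (‖brf (vh M) (n - k)‖ * ‖brf (vh M) (n + k + 1)‖) := by
      rw [mul_div_assoc', div_le_iff₀ hR] at h5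
      linarith
    calc ‖brf (vh M) n‖ * (‖brf (vh M) n‖ / (‖brf (vh M) (n - k)‖ * ‖brf (vh M) (n + k + 1)‖) *
          ‖br (vh M) ((2 * k + 1 : ℕ) : ℤ)‖)
        ≤ ‖brf (vh M) n‖ * (‖brf (vh M) n‖ / (‖brf (vh M) (n - k)‖ * ‖brf (vh M) (n + k + 1)‖) *
          2) := by gcongr
      _ = (‖brf (vh M) n‖ ^ 2 * 2) / (‖brf (vh M) (n - k)‖ * ‖brf (vh M) (n + k + 1)‖) := by ring
      _ ≤ Rh M := by
          rw [div_le_iff₀ (by positivity)]
          exact h6
  calc ‖brf (vh M) n‖ * ‖gamH (A : ℤ) (vh M) n‖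
      ≤ ∑ k ∈ range (n + 1), Rh M := by
        unfold gamH
        refine (mul_le_mul_of_nonneg_left (norm_sum_le _ _) (norm_nonneg _)).trans ?_
        rw [Finset.mul_sum]
        exact Finset.sum_le_sum hterm
    _ = ((n : ℝ) + 1) * Rh M := by
        rw [Finset.sum_const, Finset.card_range, nsmul_eq_mul]
        push_cast
        ring
    _ ≤ M * (2 * M) := by
        have h7 : (n : ℝ) + 1 ≤ M := by exact_mod_cast (by omega : n + 1 ≤ M)
        have h8 : Rh M ≤ 2 * M := by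
          unfold Rh
          linarith
        exact mul_le_mul h7 h8 hR.le (by positivity)
    _ = Real.exp (2 * Real.log M + Real.log 2) := by
        have e5 : Real.exp (2 * Real.log M) = (M : ℝ) * M := by
          rw [two_mul, Real.exp_add, Real.exp_log (by positivity)]
        rw [Real.exp_add, e5, Real.exp_log (by norm_num)]
        ring
    _ ≤ Real.exp (ε * M) := Real.exp_le_exp.mpr hM

end Pool.Agent.W975.TV
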